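import Pool.Agent.H66.FA.T

/-!
# Left-invariant Finsler metrics on almost abelian groups: the Busemann-Hausdorff density
-/

set_option autoImplicit false

open Matrix

namespace Pool.Agent.H73.FA

open Pool.Agent.H66.FA Pool.Agent.H63.Fins MeasureTheory Filter Topology

theorem pf_VOL (hML : T_ML) (hCPT : T_CPT) : T_VOL := by
  intro m B E F hE hF hFE
  have hL : IsML fun y => F 0 y ^ 2 / 2 := (hML (m + 1) F hF 0).1
  obtain ⟨a, ha, hbd⟩ := (hCPT (m + 1) _ hL).1
  have hF0 : ∀ y, 0 ≤ F 0 y := hF.nonneg 0 (Set.mem_univ _)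
  -- the unit ball of the norm
  set K : Set (V (m + 1)) := {z | F 0 z < 1} with hK
  have hfin : volume K < ⊤ := by
    have hsub : K ⊆ Metric.closedBall 0 (Real.sqrt (1 / (2 * a))) := by
      intro z hz
      rw [mem_closedBall_zero_iff]
      apply Real.le_sqrt_of_sq_le
      have h1 := hbd z
      have h2 : F 0 z ^ 2 ≤ 1 := pow_le_one₀ (hF0 z) (le_of_lt hz)
      rw [le_div_iff₀ (by positivity)]
      have h3 : a * ‖z‖ ^ 2 ≤ F 0 z ^ 2 / 2 := h1
      nlinarith
    exact (measure_mono hsub).trans_lt measure_closedBall_lt_top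
  have hpos : 0 < volume K := by
    have hcont : ContinuousOn (fun y => F 0 y) {y : V (m + 1) | y ≠ 0} := by
      have h1 : ContinuousOn (fun p : V (m + 1) × V (m + 1) => F p.1 p.2)
          {p | p.1 ∈ Set.univ ∧ p.2 ≠ 0} := hF.smooth.continuousOn
      have h2 : ContinuousOn (fun y : V (m + 1) => ((0 : V (m + 1)), y))
          {y : V (m + 1) | y ≠ 0} := by fun_prop
      exact h1.comp h2 fun y hy => ⟨Set.mem_univ _, hy⟩
    have hopen : IsOpen {y : V (m + 1) | y ≠ 0} := isOpen_ne
    have hO : IsOpen ({y : V (m + 1) | y ≠ 0} ∩ (fun y => F 0 y) ⁻¹' Set.Iio 1) :=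
      hcont.isOpen_inter_preimage hopen isOpen_Iio
    have hne : ({y : V (m + 1) | y ≠ 0} ∩ (fun y => F 0 y) ⁻¹' Set.Iio 1).Nonempty := by
      have he : (ee 0 : V (m + 1)) ≠ 0 := by
        intro h
        have := congrFun h 0
        simp [ee] at this
      set c : ℝ := 1 / (F 0 (ee 0) + 1) with hc
      have hc0 : 0 < c := by
        have := hF0 (ee 0)
        positivity
      refine ⟨c • ee 0, smul_ne_zero hc0.ne' he, ?_⟩
      show F 0 (c • ee 0) < 1
      rw [hF.homog 0 (Set.mem_univ _) _ _ hc0, hc, one_div, inv_mul_lt_one₀ (by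
        have := hF0 (ee 0)
        linarith)]
      linarith
    exact (hO.measure_pos volume hne).trans_le (measure_mono Set.inter_subset_right)
  have hball : 0 < (volume (Metric.ball (0 : EuclideanSpace ℝ (Fin (m + 1))) 1)).toReal :=
    ENNReal.toReal_pos (Metric.measure_ball_pos volume _ one_pos).ne' measure_ball_lt_top.ne
  refine ⟨div_pos hball (ENNReal.toReal_pos hpos.ne' hfin.ne), fun x => ?_⟩
  have hdet : (E (-x 0)).det ≠ 0 := by
    have hinv : (E (-x 0)).comp (E (x 0)) = ContinuousLinearMap.id ℝ _ := by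
      ext1 y
      have h1 := hE.add (-x 0) (x 0) y
      rw [neg_add_cancel, hE.zero] at h1
      exact h1.symm
    intro h0
    have h2 : ((E (-x 0)).comp (E (x 0))).det = (E (-x 0)).det * (E (x 0)).det := by
      unfold ContinuousLinearMap.det
      exact LinearMap.det_comp _ _
    rw [hinv, h0, zero_mul] at h2
    unfold ContinuousLinearMap.det at h2
    rw [ContinuousLinearMap.coe_id, LinearMap.det_id] at h2
    exact one_ne_zero h2
  have hpre : {y : V (m + 1) | F x y < 1} = (E (-x 0)) ⁻¹' K := by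
    ext y
    simp only [hK, Set.mem_ofPred_eq, Set.mem_preimage]
    rw [hFE x y]
  unfold sigmaBH
  rw [hpre, Measure.addHaar_preimage_continuousLinearMap volume hdet, ENNReal.toReal_mul,
    ENNReal.toReal_ofReal (abs_nonneg _), abs_inv, div_mul_eq_div_div, div_inv_eq_mul]
  ring

end Pool.Agent.H73.FA
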